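import Pool.Agent.H6.NBDefs
import Pool.Agent.H6.NB5

namespace Pool.Agent.Results.MP_af568f_an.NoBasicSequence

open Pool.Agent.H6.NB

/-- For `𝕜 = ℝ` and for `𝕜 = ℂ` there is an infinite-dimensional Hausdorff locally convex space
over `𝕜` which contains no basic sequence. -/
theorem result (𝕜 : Type) [RCLike 𝕜] :
    ∃ (V : Type) (_ : AddCommGroup V) (_ : Module 𝕜 V) (_ : Module ℝ V) (_ : IsScalarTower ℝ 𝕜 V)
      (_ : TopologicalSpace V),
      IsTopologicalAddGroup V ∧ ContinuousSMul 𝕜 V ∧ LocallyConvexSpace ℝ V ∧ T2Space V ∧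
      ¬ FiniteDimensional 𝕜 V ∧ ∀ x : ℕ → V, ¬ IsBasicSeq 𝕜 x :=
  Pool.Agent.H6.NB.main 𝕜

end Pool.Agent.Results.MP_af568f_an.NoBasicSequence
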